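import Pool.Agent.H14.HF.Sums
import Pool.Agent.H14.QF.Circ

/-!
# `1/2`-flow-pairs: graphs without long circuits outside of the local edges (MP_e59a69_co)

Every bridgeless multigraph in which no circuit has more than thirteen edges which are not local has
a `1/2`-flow-pair, and at every vertex with exactly three edges (loops not counted) every admissible
choice of the values extends to a `1/2`-flow-pair.  Here the local edges are the least set of edges
which contains all edges of the circuits with at most four edges, and of the circuits which have at
most four edges after local edges have been contracted.  In particular this holds for circumference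
at most thirteen, but the circumference may be unbounded.  Moreover such graphs can be glued, in any
number and in any order, along edge cuts with three edges, with each other and with graphs which
have a nowhere-zero 4-flow.  The order, the degrees and the connectivity are arbitrary.

Proof.  A minimal contraction without a nowhere-zero 4-flow and without a Petersen quotient contracts
all local edges, and its circuits can be lifted so that all their edges are kept; so the library
theorem for graphs without circuits with more than thirteen vertices (`N393/C13`, made for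
MP_e6539c_co) applies to this contraction.  Take a smallest contraction of the
graph for which the statement fails.  It has no nowhere-zero 4-flow (Hoffman's theorem gives pairs
with prescribed values, `TH499/NF`), so it has a Petersen quotient, and the ten pairs of its classes
are glued along a pair of the Petersen graph (`R129/Hfp`, `H789/HF`).  Pairs with prescribed values
at the vertices with three edges can be glued along edge cuts with three edges (`H14/HF/Gen`).
-/

set_option autoImplicit false

namespace Pool.Agent.Results.MP_e59a69_co.LongCircuits

open Finset Pool.Agent.H160R2.HF Pool.Agent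

section

variable {V E : Type} [Fintype V] [Fintype E] [DecidableEq V] [DecidableEq E]

/-- The edge `e` is local: it is in every edge set `S` such that each even edge set with at most four
edges outside of `S` is contained in `S` (a loop counts twice in the degrees). -/
def IsLocal (G : OrGraph V E) (e : E) : Prop :=
  ∀ S : Finset E, (∀ C : Finset E, (∀ v, Even (G.deg C v)) → (C \ S).card ≤ 4 → C ⊆ S) → e ∈ S

/-- Some circuit has more than thirteen edges which are not local: there are `n` different vertices
`v 0, ..., v (n - 1)` such that the edge `e i` joins `v i` and `v (i + 1)` for each `i`, where the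
indices are read modulo `n`, and more than thirteen of the edges `e 0, ..., e (n - 1)` are not
local. -/
def HasLongCircuit (G : OrGraph V E) : Prop :=
  ∃ (n : ℕ) (v : ℕ → V) (e : ℕ → E), (∀ i < n, ∀ j < n, v i = v j → i = j) ∧
    (∀ i < n, (G.t (e i) = v i ∧ G.h (e i) = v ((i + 1) % n)) ∨
      (G.t (e i) = v ((i + 1) % n) ∧ G.h (e i) = v i)) ∧
    13 < {i | i < n ∧ ¬ IsLocal G (e i)}.ncard

/-- `G` has a nowhere-zero 4-flow. -/
def NowhereZeroFourFlow (G : OrGraph V E) : Prop :=
  ∃ ψ : E → ℤ, G.IsKFlow 4 ψ ∧ ∀ e, ψ e ≠ 0

/-- Contraction of the vertex set `X` to the vertex `x`: the ends of the edges which are in `X` are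
replaced by `x` (edges with both ends in `X` become loops, the vertices of `X` other than `x` become
isolated). -/
def contract (G : OrGraph V E) (X : Finset V) (x : V) : OrGraph V E :=
  ⟨fun e => if G.t e ∈ X then x else G.t e, fun e => if G.h e ∈ X then x else G.h e⟩

/-- The least class of graphs which contains the graphs without a long circuit, the graphs which
have a nowhere-zero 4-flow, and every graph `G` with a vertex set `X` with exactly three boundary
edges such that the two graphs obtained by contracting `X`, and by contracting the complement of
`X`, are in the class. -/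
inductive Sums : OrGraph V E → Prop
  | basic (G : OrGraph V E) (h : ¬ HasLongCircuit G) : Sums G
  | flow (G : OrGraph V E) (h : NowhereZeroFourFlow G) : Sums G
  | glue (G : OrGraph V E) (X : Finset V) (x y : V) (hx : x ∈ X) (hy : y ∉ X)
      (h3 : (G.cut X).card = 3) (h1 : Sums (contract G X x)) (h2 : Sums (contract G Xᶜ y)) : Sums G

/-- `α e, β e` are admissible values of a `1/2`-flow-pair at the edges `e` of `w` (without loops):
the two sums of the outgoing values are zero, `|α e| ≤ 1`, `|β e| ≤ 3`, and `|β e| ≥ 2` if
`α e = 0`. -/
def Admissible (G : OrGraph V E) (w : V) (α β : E → ℤ) : Prop :=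
  ∑ e ∈ G.cut {w}, (if G.t e = w then α e else - α e) = 0 ∧
  ∑ e ∈ G.cut {w}, (if G.t e = w then β e else - β e) = 0 ∧
  ∀ e ∈ G.cut {w}, |α e| ≤ 1 ∧ |β e| ≤ 3 ∧ (α e = 0 → 2 ≤ |β e|)

end

theorem deg_eq {V E : Type} [Fintype V] [Fintype E] [DecidableEq V] [DecidableEq E]
    (G : OrGraph V E) (C : Finset E) (v : V) : TH362.TF.deg G.t G.h C v = G.deg C v := by
  unfold TH362.TF.deg OrGraph.deg
  rw [Finset.sum_add_distrib, Finset.card_filter, Finset.card_filter]

theorem Sums.to {V E : Type} [Fintype V] [Fintype E] [DecidableEq V] [DecidableEq E]
    {G : OrGraph V E} (h : Sums G) : H14.HF.Sums (fun G => ¬ HasLongCircuit G) G := by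
  induction h with
  | basic G h => exact H14.HF.Sums.basic G h
  | flow G h => exact H14.HF.Sums.flow G h
  | glue G X x y hx hy h3 _ _ ih1 ih2 => exact H14.HF.Sums.glue G X x y hx hy h3 ih1 ih2

theorem pr_long {V E : Type} [Fintype V] [Fintype E] [DecidableEq V] [DecidableEq E]
    (G : OrGraph V E) (hn : TH362.TF.N1 G.t G.h univ) (h : ¬ HasLongCircuit G) :
    H789.HF.Pr G.t G.h := by
  classical
  refine H14.HF.pr_gen G.t G.h hn fun π hπ h1 => H14.QF.Circ.dich ?_ π hπ h1
  rintro ⟨n, v, e, hv, he, hcard⟩
  refine h ⟨n, v, e, hv, he, lt_of_lt_of_le hcard ?_⟩
  rw [← Set.ncard_coe_finset]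
  refine Set.ncard_le_ncard ?_ ((Set.finite_lt_nat n).subset fun i hi => hi.1)
  intro i hi
  rw [Finset.mem_coe, Finset.mem_filter, Finset.mem_range] at hi
  refine ⟨hi.1, fun h1 => hi.2 fun S hS => h1 S fun C hC => hS C fun v => ?_⟩
  rw [deg_eq]
  exact hC v

/-- Every bridgeless multigraph in the class `Sums`, in particular every bridgeless multigraph in
which no circuit has more than thirteen edges which are not local, has a `1/2`-flow-pair, and all
admissible values at a vertex with three edges extend. -/
theorem result (V E : Type) [Fintype V] [DecidableEq V] [Fintype E] [DecidableEq E]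
    (G : OrGraph V E) (hB : G.Bridgeless) (hG : Sums G) :
    (∃ φ₂ φ₄ : E → ℤ, G.IsHalfFlowPair φ₂ φ₄) ∧
      ∀ w, (G.cut {w}).card = 3 → ∀ α β : E → ℤ, Admissible G w α β →
        ∃ φ₂ φ₄ : E → ℤ, G.IsHalfFlowPair φ₂ φ₄ ∧ ∀ e ∈ G.cut {w}, φ₂ e = α e ∧ φ₄ e = β e := by
  obtain ⟨h1, h2⟩ := H14.HF.sums_fl (B := fun G => ¬ HasLongCircuit G)
    (fun G h hb => pr_long G (R129.Hfp.n1_of hb) h) G hG.to (G.cut_card_ne_one hB)
  exact ⟨h1, fun w hw α β ⟨a, b, c⟩ => h2 w hw α β a b c⟩

end Pool.Agent.Results.MP_e59a69_co.LongCircuits
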