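import Pool.Agent.H14.HF.Sums

/-!
# `1/2`-flow-pairs: partitions with eighteen odd classes (MP_e59a69_co)

Let `G` be a bridgeless multigraph such that every partition of the vertex set into `k` classes, at
least 18 of which have an odd number of boundary edges, has at least `2 (k - 1)` crossing edges
(more generally it suffices to consider the partitions without crossing edges in the union of a
chain of sets of edges with at most four new edges and without new bridges, or doubly connected).
Then `G` has a `1/2`-flow-pair, and at every vertex with exactly three edges (loops not counted)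
every admissible choice of the values extends to a `1/2`-flow-pair.  Moreover such graphs can be
glued, in any number and in any order, along edge cuts with three edges, with each other and with
graphs which have a nowhere-zero 4-flow.

Proof.  By a theorem of the library for MP_e6539c_co (`N410/DC`) these graphs have a nowhere-zero
4-flow or a quotient which is a Petersen graph, and the class is closed under quotients.  Take a
smallest contraction of the graph for which the statement fails.  It has no nowhere-zero 4-flow
(Hoffman's theorem gives pairs with prescribed values, `TH499/NF`), so it has a Petersen quotient,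
and the ten pairs of its classes are glued along a pair of the Petersen graph (`R129/Hfp`,
`H789/HF`).  Pairs with prescribed values at the vertices with three edges can be glued along edge
cuts with three edges (`H14/HF/Gen`).
-/

set_option autoImplicit false

namespace Pool.Agent.Results.MP_e59a69_co.ManyCrossingEdges

open Finset Pool.Agent.H160R2.HF Pool.Agent

section

variable {V E : Type} [Fintype V] [Fintype E] [DecidableEq V] [DecidableEq E]

/-- The union of the sets `C j` with `j < i`. -/
def earlier {m : ℕ} (C : Fin m → Finset E) (i : Fin m) : Finset E :=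
  (univ.filter (fun j => j < i)).biUnion C

/-- `H` can be added to the chain after `F`: either (short) `H` has at most four edges outside `F`
and no bridge modulo `F`: no set `Y` of vertices without boundary edges in `F` has exactly one
boundary edge in `H`; or (doubly connected) `H` contains two disjoint sets each of which connects,
modulo `F`, whatever `H` connects: every set `Y` of vertices without boundary edges in `F` and with
a boundary edge in `H` has boundary edges in both sets. -/
def Adds (G : OrGraph V E) (F H : Finset E) : Prop :=
  ((H \ F).card ≤ 4 ∧ ∀ Y : Finset V, Disjoint (G.cut Y) F → (G.cut Y ∩ H).card ≠ 1) ∨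
  ∃ T₁ T₂ : Finset E, T₁ ⊆ H ∧ T₂ ⊆ H ∧ Disjoint T₁ T₂ ∧ ∀ Y : Finset V,
    Disjoint (G.cut Y) F → ¬ Disjoint (G.cut Y) H →
      ¬ Disjoint (G.cut Y) T₁ ∧ ¬ Disjoint (G.cut Y) T₂

/-- The `i`-th class of the partition `p`. -/
def part {k : ℕ} (p : V → Fin k) (i : Fin k) : Finset V := univ.filter (fun v => p v = i)

/-- For some chain of sets of edges (for instance the empty chain) every partition of the vertex set
into `k` classes without crossing edges in the chain, at least 18 of which have an odd number of
boundary edges, has at least `2 (k - 1)` crossing edges. -/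
def ManyCrossing (G : OrGraph V E) : Prop :=
  ∃ (m : ℕ) (C : Fin m → Finset E), (∀ i, Adds G (earlier C i) (C i)) ∧
    ∀ (k : ℕ) (p : V → Fin k), Function.Surjective p →
      (∀ e ∈ univ.biUnion C, p (G.t e) = p (G.h e)) →
      18 ≤ (univ.filter (fun i => Odd (G.cut (part p i)).card)).card →
      2 * k ≤ (univ.filter (fun e => p (G.t e) ≠ p (G.h e))).card + 2

/-- `G` has a nowhere-zero 4-flow. -/
def NowhereZeroFourFlow (G : OrGraph V E) : Prop :=
  ∃ ψ : E → ℤ, G.IsKFlow 4 ψ ∧ ∀ e, ψ e ≠ 0

/-- Contraction of the vertex set `X` to the vertex `x`: the ends of the edges which are in `X` are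
replaced by `x` (edges with both ends in `X` become loops, the vertices of `X` other than `x` become
isolated). -/
def contract (G : OrGraph V E) (X : Finset V) (x : V) : OrGraph V E :=
  ⟨fun e => if G.t e ∈ X then x else G.t e, fun e => if G.h e ∈ X then x else G.h e⟩

/-- The least class of graphs which contains the graphs with `ManyCrossing`, the graphs which have a
nowhere-zero 4-flow, and every graph `G` with a vertex set `X` with exactly three boundary edges
such that the two graphs obtained by contracting `X`, and by contracting the complement of `X`, are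
in the class. -/
inductive Sums : OrGraph V E → Prop
  | basic (G : OrGraph V E) (h : ManyCrossing G) : Sums G
  | flow (G : OrGraph V E) (h : NowhereZeroFourFlow G) : Sums G
  | glue (G : OrGraph V E) (X : Finset V) (x y : V) (hx : x ∈ X) (hy : y ∉ X)
      (h3 : (G.cut X).card = 3) (h1 : Sums (contract G X x)) (h2 : Sums (contract G Xᶜ y)) : Sums G

/-- `α e, β e` are admissible values of a `1/2`-flow-pair at the edges `e` of `w` (without loops):
the two sums of the outgoing values are zero, `|α e| ≤ 1`, `|β e| ≤ 3`, and `|β e| ≥ 2` if
`α e = 0`. -/
def Admissible (G : OrGraph V E) (w : V) (α β : E → ℤ) : Prop :=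
  ∑ e ∈ G.cut {w}, (if G.t e = w then α e else - α e) = 0 ∧
  ∑ e ∈ G.cut {w}, (if G.t e = w then β e else - β e) = 0 ∧
  ∀ e ∈ G.cut {w}, |α e| ≤ 1 ∧ |β e| ≤ 3 ∧ (α e = 0 → 2 ≤ |β e|)

end

theorem Sums.to {V E : Type} [Fintype V] [Fintype E] [DecidableEq V] [DecidableEq E]
    {G : OrGraph V E} (h : Sums G) : H14.HF.Sums ManyCrossing G := by
  induction h with
  | basic G h => exact H14.HF.Sums.basic G h
  | flow G h => exact H14.HF.Sums.flow G h
  | glue G X x y hx hy h3 _ _ ih1 ih2 => exact H14.HF.Sums.glue G X x y hx hy h3 ih1 ih2

/-- Every bridgeless multigraph in the class `Sums` has a `1/2`-flow-pair, and all admissible values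
at a vertex with three edges extend. -/
theorem result (V E : Type) [Fintype V] [DecidableEq V] [Fintype E] [DecidableEq E]
    (G : OrGraph V E) (hB : G.Bridgeless) (hG : Sums G) :
    (∃ φ₂ φ₄ : E → ℤ, G.IsHalfFlowPair φ₂ φ₄) ∧
      ∀ w, (G.cut {w}).card = 3 → ∀ α β : E → ℤ, Admissible G w α β →
        ∃ φ₂ φ₄ : E → ℤ, G.IsHalfFlowPair φ₂ φ₄ ∧ ∀ e ∈ G.cut {w}, φ₂ e = α e ∧ φ₄ e = β e := by
  obtain ⟨h1, h2⟩ := H14.HF.sums_fl (B := ManyCrossing) (fun G h hb => by
    obtain ⟨m, C, hC, hO⟩ := h
    exact H14.HF.pr_part G.t G.h (R129.Hfp.n1_of hb) (N410.DC.GCl.of_part hC hO))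
    G hG.to (G.cut_card_ne_one hB)
  exact ⟨h1, fun w hw α β ⟨a, b, c⟩ => h2 w hw α β a b c⟩

end Pool.Agent.Results.MP_e59a69_co.ManyCrossingEdges
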