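import Pool.Agent.H14.HF.Sums
import Pool.Agent.H14.QF.Tame

/-!
# `1/2`-flow-pairs: no nine disjoint edges which are not local (MP_e59a69_co)

Let `G` be a bridgeless multigraph which does not contain nine pairwise disjoint edges none of which
is local (for instance a graph with matching number at most eight, or a graph in which eight vertices
meet all edges which are not local).  Here the local edges are the least set of edges which contains
all edges of the circuits with at most four edges, and of the circuits which have at most four edges
after local edges have been contracted.  Then `G` has a `1/2`-flow-pair, and at every vertex with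
exactly three edges (loops not counted) every admissible choice of the values extends to a
`1/2`-flow-pair.  Moreover such graphs can be glued, in any number and in any order, along edge cuts
with three edges, with each other and with graphs which have a nowhere-zero 4-flow.

Proof.  A minimal contraction without a nowhere-zero 4-flow and without a Petersen quotient contracts
all local edges, and it has nine disjoint edges (library `W5h8/M9`); these are disjoint in the graph,
and they are not local.  Take a smallest contraction of the graph for which the statement fails.  It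
has no nowhere-zero 4-flow (Hoffman's theorem gives pairs with prescribed values, `TH499/NF`), so it
has a Petersen quotient, and the ten pairs of its classes are glued along a pair of the Petersen graph
(`R129/Hfp`, `H789/HF`).  Pairs with prescribed values at the vertices with three edges can be glued
along edge cuts with three edges (`H14/HF/Gen`).
-/

set_option autoImplicit false

namespace Pool.Agent.Results.MP_e59a69_co.NineDisjointEdges

open Finset Pool.Agent.H160R2.HF Pool.Agent

section

variable {V E : Type} [Fintype V] [Fintype E] [DecidableEq V] [DecidableEq E]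

/-- The edge `e` is local: it is in every edge set `S` such that each even edge set with at most four
edges outside of `S` is contained in `S` (a loop counts twice in the degrees). -/
def IsLocal (G : OrGraph V E) (e : E) : Prop :=
  ∀ S : Finset E, (∀ C : Finset E, (∀ v, Even (G.deg C v)) → (C \ S).card ≤ 4 → C ⊆ S) → e ∈ S

/-- There are no nine edges, pairwise without common end, none of which is local. -/
def NoNineDisjointEdges (G : OrGraph V E) : Prop :=
  ¬ ∃ f : Fin 9 → E, (∀ i, ¬ IsLocal G (f i)) ∧
    ∀ i j, i ≠ j → Disjoint ({G.t (f i), G.h (f i)} : Set V) {G.t (f j), G.h (f j)}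

/-- `G` has a nowhere-zero 4-flow. -/
def NowhereZeroFourFlow (G : OrGraph V E) : Prop :=
  ∃ ψ : E → ℤ, G.IsKFlow 4 ψ ∧ ∀ e, ψ e ≠ 0

/-- Contraction of the vertex set `X` to the vertex `x`: the ends of the edges which are in `X` are
replaced by `x` (edges with both ends in `X` become loops, the vertices of `X` other than `x` become
isolated). -/
def contract (G : OrGraph V E) (X : Finset V) (x : V) : OrGraph V E :=
  ⟨fun e => if G.t e ∈ X then x else G.t e, fun e => if G.h e ∈ X then x else G.h e⟩

/-- The least class of graphs which contains the graphs with `NoNineDisjointEdges`, the graphs which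
have a nowhere-zero 4-flow, and every graph `G` with a vertex set `X` with exactly three boundary
edges such that the two graphs obtained by contracting `X`, and by contracting the complement of
`X`, are in the class. -/
inductive Sums : OrGraph V E → Prop
  | basic (G : OrGraph V E) (h : NoNineDisjointEdges G) : Sums G
  | flow (G : OrGraph V E) (h : NowhereZeroFourFlow G) : Sums G
  | glue (G : OrGraph V E) (X : Finset V) (x y : V) (hx : x ∈ X) (hy : y ∉ X)
      (h3 : (G.cut X).card = 3) (h1 : Sums (contract G X x)) (h2 : Sums (contract G Xᶜ y)) : Sums G

/-- `α e, β e` are admissible values of a `1/2`-flow-pair at the edges `e` of `w` (without loops):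
the two sums of the outgoing values are zero, `|α e| ≤ 1`, `|β e| ≤ 3`, and `|β e| ≥ 2` if
`α e = 0`. -/
def Admissible (G : OrGraph V E) (w : V) (α β : E → ℤ) : Prop :=
  ∑ e ∈ G.cut {w}, (if G.t e = w then α e else - α e) = 0 ∧
  ∑ e ∈ G.cut {w}, (if G.t e = w then β e else - β e) = 0 ∧
  ∀ e ∈ G.cut {w}, |α e| ≤ 1 ∧ |β e| ≤ 3 ∧ (α e = 0 → 2 ≤ |β e|)

end

theorem deg_eq {V E : Type} [Fintype V] [Fintype E] [DecidableEq V] [DecidableEq E]
    (G : OrGraph V E) (C : Finset E) (v : V) : TH362.TF.deg G.t G.h C v = G.deg C v := by
  unfold TH362.TF.deg OrGraph.deg
  rw [Finset.sum_add_distrib, Finset.card_filter, Finset.card_filter]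

theorem Sums.to {V E : Type} [Fintype V] [Fintype E] [DecidableEq V] [DecidableEq E]
    {G : OrGraph V E} (h : Sums G) : H14.HF.Sums NoNineDisjointEdges G := by
  induction h with
  | basic G h => exact H14.HF.Sums.basic G h
  | flow G h => exact H14.HF.Sums.flow G h
  | glue G X x y hx hy h3 _ _ ih1 ih2 => exact H14.HF.Sums.glue G X x y hx hy h3 ih1 ih2

/-- Every bridgeless multigraph in the class `Sums`, in particular every bridgeless multigraph
without nine disjoint edges which are not local, has a `1/2`-flow-pair, and all admissible values at
a vertex with three edges extend. -/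
theorem result (V E : Type) [Fintype V] [DecidableEq V] [Fintype E] [DecidableEq E]
    (G : OrGraph V E) (hB : G.Bridgeless) (hG : Sums G) :
    (∃ φ₂ φ₄ : E → ℤ, G.IsHalfFlowPair φ₂ φ₄) ∧
      ∀ w, (G.cut {w}).card = 3 → ∀ α β : E → ℤ, Admissible G w α β →
        ∃ φ₂ φ₄ : E → ℤ, G.IsHalfFlowPair φ₂ φ₄ ∧ ∀ e ∈ G.cut {w}, φ₂ e = α e ∧ φ₄ e = β e := by
  obtain ⟨h1, h2⟩ := H14.HF.sums_fl (B := NoNineDisjointEdges) (fun G h hb =>
    H14.HF.pr_gen G.t G.h (R129.Hfp.n1_of hb) fun π hπ h1 => H14.QF.Tm.dich (Or.inr (Or.inl (by
      rintro ⟨f, hf, hd⟩
      exact h ⟨f, fun i h3 => hf i fun S hS => h3 S fun C hC => hS C fun v => by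
        rw [deg_eq]; exact hC v, hd⟩))) π hπ h1)
    G hG.to (G.cut_card_ne_one hB)
  exact ⟨h1, fun w hw α β ⟨a, b, c⟩ => h2 w hw α β a b c⟩

end Pool.Agent.Results.MP_e59a69_co.NineDisjointEdges
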