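import Pool.Agent.H14.HF.Sums
import Pool.Agent.H14.QF.Tame

/-!
# `1/2`-flow-pairs: few edge cuts with three edges (MP_e59a69_co)

Let `G` be a bridgeless multigraph without thirteen pairwise disjoint vertex sets with pairwise
different boundaries each of which consists of exactly three edges which are not local (for instance
a graph with at most twelve edge cuts with three edges).  Here the local edges are the least set of
edges which contains all edges of the circuits with at most four edges, and of the circuits which
have at most four edges after local edges have been contracted.  Then `G` has a `1/2`-flow-pair, and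
at every vertex with exactly three edges (loops not counted) every admissible choice of the values
extends to a `1/2`-flow-pair.  Moreover such graphs can be glued, in any number and in any order,
along edge cuts with three edges, with each other and with graphs which have a nowhere-zero 4-flow;
the result may have any number of edge cuts with three edges.

Proof.  A minimal contraction without a nowhere-zero 4-flow and without a Petersen quotient contracts
all local edges, and it has thirteen such vertex sets (library `TH362/FO`); their preimages are such
sets of the graph, and no edge of the boundaries is local.  Take a smallest contraction of the graph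
for which the statement fails.  It has no nowhere-zero 4-flow (Hoffman's theorem gives pairs with
prescribed values, `TH499/NF`), so it has a Petersen quotient, and the ten pairs of its classes are
glued along a pair of the Petersen graph (`R129/Hfp`, `H789/HF`).  Pairs with prescribed values at
the vertices with three edges can be glued along edge cuts with three edges (`H14/HF/Gen`).
-/

set_option autoImplicit false

namespace Pool.Agent.Results.MP_e59a69_co.TwelveThreeCuts

open Finset Pool.Agent.H160R2.HF Pool.Agent

section

variable {V E : Type} [Fintype V] [Fintype E] [DecidableEq V] [DecidableEq E]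

/-- The edge `e` is local: it is in every edge set `S` such that each even edge set with at most four
edges outside of `S` is contained in `S` (a loop counts twice in the degrees). -/
def IsLocal (G : OrGraph V E) (e : E) : Prop :=
  ∀ S : Finset E, (∀ C : Finset E, (∀ v, Even (G.deg C v)) → (C \ S).card ≤ 4 → C ⊆ S) → e ∈ S

/-- There are no thirteen pairwise disjoint vertex sets with pairwise different boundaries each of
which has exactly three edges, none of them local. -/
def FewThreeCuts (G : OrGraph V E) : Prop :=
  ¬ ∃ X : Fin 13 → Finset V, (∀ i j, i ≠ j → Disjoint (X i) (X j)) ∧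
    (∀ i j, i ≠ j → G.cut (X i) ≠ G.cut (X j)) ∧
    ∀ i, (G.cut (X i)).card = 3 ∧ ∀ e ∈ G.cut (X i), ¬ IsLocal G e

/-- `G` has a nowhere-zero 4-flow. -/
def NowhereZeroFourFlow (G : OrGraph V E) : Prop :=
  ∃ ψ : E → ℤ, G.IsKFlow 4 ψ ∧ ∀ e, ψ e ≠ 0

/-- Contraction of the vertex set `X` to the vertex `x`: the ends of the edges which are in `X` are
replaced by `x` (edges with both ends in `X` become loops, the vertices of `X` other than `x` become
isolated). -/
def contract (G : OrGraph V E) (X : Finset V) (x : V) : OrGraph V E :=
  ⟨fun e => if G.t e ∈ X then x else G.t e, fun e => if G.h e ∈ X then x else G.h e⟩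

/-- The least class of graphs which contains the graphs with `FewThreeCuts`, the graphs which
have a nowhere-zero 4-flow, and every graph `G` with a vertex set `X` with exactly three boundary
edges such that the two graphs obtained by contracting `X`, and by contracting the complement of
`X`, are in the class. -/
inductive Sums : OrGraph V E → Prop
  | basic (G : OrGraph V E) (h : FewThreeCuts G) : Sums G
  | flow (G : OrGraph V E) (h : NowhereZeroFourFlow G) : Sums G
  | glue (G : OrGraph V E) (X : Finset V) (x y : V) (hx : x ∈ X) (hy : y ∉ X)
      (h3 : (G.cut X).card = 3) (h1 : Sums (contract G X x)) (h2 : Sums (contract G Xᶜ y)) : Sums G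

/-- `α e, β e` are admissible values of a `1/2`-flow-pair at the edges `e` of `w` (without loops):
the two sums of the outgoing values are zero, `|α e| ≤ 1`, `|β e| ≤ 3`, and `|β e| ≥ 2` if
`α e = 0`. -/
def Admissible (G : OrGraph V E) (w : V) (α β : E → ℤ) : Prop :=
  ∑ e ∈ G.cut {w}, (if G.t e = w then α e else - α e) = 0 ∧
  ∑ e ∈ G.cut {w}, (if G.t e = w then β e else - β e) = 0 ∧
  ∀ e ∈ G.cut {w}, |α e| ≤ 1 ∧ |β e| ≤ 3 ∧ (α e = 0 → 2 ≤ |β e|)

end

theorem deg_eq {V E : Type} [Fintype V] [Fintype E] [DecidableEq V] [DecidableEq E]
    (G : OrGraph V E) (C : Finset E) (v : V) : TH362.TF.deg G.t G.h C v = G.deg C v := by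
  unfold TH362.TF.deg OrGraph.deg
  rw [Finset.sum_add_distrib, Finset.card_filter, Finset.card_filter]

theorem cut_eq {V E : Type} [Fintype V] [Fintype E] [DecidableEq V] [DecidableEq E]
    (G : OrGraph V E) (x : V → Bool) :
    TH362.TF.cut G.t G.h univ x = G.cut (univ.filter fun v => x v = true) := by
  ext e
  simp only [TH362.TF.cut, OrGraph.cut, Finset.mem_filter, Finset.mem_univ, true_and]
  cases x (G.t e) <;> cases x (G.h e) <;> simp

theorem Sums.to {V E : Type} [Fintype V] [Fintype E] [DecidableEq V] [DecidableEq E]
    {G : OrGraph V E} (h : Sums G) : H14.HF.Sums FewThreeCuts G := by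
  induction h with
  | basic G h => exact H14.HF.Sums.basic G h
  | flow G h => exact H14.HF.Sums.flow G h
  | glue G X x y hx hy h3 _ _ ih1 ih2 => exact H14.HF.Sums.glue G X x y hx hy h3 ih1 ih2

/-- Every bridgeless multigraph in the class `Sums`, in particular every bridgeless multigraph
without thirteen disjoint vertex sets with different boundaries which consist of three edges which
are not local, has a `1/2`-flow-pair, and all admissible values at a vertex with three edges
extend. -/
theorem result (V E : Type) [Fintype V] [DecidableEq V] [Fintype E] [DecidableEq E]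
    (G : OrGraph V E) (hB : G.Bridgeless) (hG : Sums G) :
    (∃ φ₂ φ₄ : E → ℤ, G.IsHalfFlowPair φ₂ φ₄) ∧
      ∀ w, (G.cut {w}).card = 3 → ∀ α β : E → ℤ, Admissible G w α β →
        ∃ φ₂ φ₄ : E → ℤ, G.IsHalfFlowPair φ₂ φ₄ ∧ ∀ e ∈ G.cut {w}, φ₂ e = α e ∧ φ₄ e = β e := by
  obtain ⟨h1, h2⟩ := H14.HF.sums_fl (B := FewThreeCuts) (fun G h hb =>
    H14.HF.pr_gen G.t G.h (R129.Hfp.n1_of hb) fun π hπ h1 => H14.QF.Tm.dich (Or.inr (Or.inr (by
      rintro ⟨X, h1, h2, h3⟩
      refine h ⟨fun i => univ.filter fun v => X i v = true, fun i j hij => ?_,
        fun i j hij => ?_, fun i => ⟨?_, ?_⟩⟩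
      · rw [Finset.disjoint_left]
        intro v hv hw
        simp only [Finset.mem_filter, Finset.mem_univ, true_and] at hv hw
        exact h1 i j hij v ⟨hv, hw⟩
      · rw [← cut_eq, ← cut_eq]
        exact h2 i j hij
      · rw [← cut_eq]
        exact (h3 i).1
      · intro e he h4
        rw [← cut_eq] at he
        exact (h3 i).2 e he fun S hS => h4 S fun C hC => hS C fun v => by
          rw [deg_eq]; exact hC v))) π hπ h1)
    G hG.to (G.cut_card_ne_one hB)
  exact ⟨h1, fun w hw α β ⟨a, b, c⟩ => h2 w hw α β a b c⟩

end Pool.Agent.Results.MP_e59a69_co.TwelveThreeCuts
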